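import Pool.Agent.helper97.AS.Spec

/-!
# Row as:UPX (MP_c8175e_co, abelian squares): up-crossing
-/

set_option autoImplicit false

namespace Pool.Agent.helper97.AS

open Pool.Agent.helper20.LB (Step F IsSq Same Bd co)

theorem UPX_per {d : ℤ → ℤ} {τ : ℤ} (hd : ∀ i, d (i + τ) = d i) (q : ℤ) :
    ∀ i, d (i + τ * q) = d i := by
  induction q using Int.induction_on with
  | zero => intro i; rw [mul_zero, add_zero]
  | succ n ih =>
    intro i
    have h : i + τ * ((n : ℤ) + 1) = (i + τ * (n : ℤ)) + τ := by ring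
    rw [h, hd, ih]
  | pred n ih =>
    intro i
    have h := hd (i + τ * (-(n : ℤ) - 1))
    have h2 : i + τ * (-(n : ℤ) - 1) + τ = i + τ * (-(n : ℤ)) := by ring
    rw [h2, ih] at h
    exact h.symm

theorem UPX_step {d : ℤ → ℤ} {t : ℤ} (h : ∀ i, d i + 1 ≤ d (i + t)) (i0 : ℤ) (k : ℕ) :
    d i0 + k ≤ d (i0 + k * t) := by
  induction k with
  | zero => simp
  | succ k ih =>
    have h1 := h (i0 + k * t)
    have h2 : i0 + ((k + 1 : ℕ) : ℤ) * t = i0 + k * t + t := by push_cast; ring
    rw [h2]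
    push_cast
    linarith

theorem UPX : UPX_stmt := by
  intro d τ t hτ ht hd i0
  by_contra hcon
  push Not at hcon
  have hg : ∀ (q i : ℤ), d (i + τ * q + t) - d (i + τ * q) = d (i + t) - d i := by
    intro q i
    have h1 : i + τ * q + t = (i + t) + τ * q := by ring
    rw [h1, UPX_per hd, UPX_per hd]
  have hP : ∀ i, d (i + t) - d i ≤ 0 → d (i + 1 + t) - d (i + 1) < 0 := by
    intro i hi
    obtain ⟨q, i', hq, h1, h2⟩ : ∃ q i' : ℤ, i = i' + τ * q ∧ i0 ≤ i' ∧ i' ≤ i0 + τ - 1 := by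
      refine ⟨(i - i0) / τ, i0 + (i - i0) % τ, ?_, ?_, ?_⟩
      · have := Int.emod_add_mul_ediv (i - i0) τ
        linarith
      · have := Int.emod_nonneg (i - i0) (by omega : τ ≠ 0)
        omega
      · have := Int.emod_lt_of_pos (i - i0) (by omega : 0 < τ)
        omega
    have h3 : d (i' + t) - d i' ≤ 0 := by
      have := hg q i'
      rw [← hq] at this
      omega
    have h4 := hcon i' h1 h2 h3
    have h5 := hg q (i' + 1)
    have h6 : i' + 1 + τ * q = i + 1 := by omega
    rw [h6] at h5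
    omega
  have hlast : d (i0 + (τ.toNat : ℤ) * t) = d i0 := by
    have h1 : ((τ.toNat : ℕ) : ℤ) = τ := Int.toNat_of_nonneg (by omega)
    rw [h1]
    exact UPX_per hd t i0
  have hτn : (1 : ℤ) ≤ ((τ.toNat : ℕ) : ℤ) := by
    have h1 : ((τ.toNat : ℕ) : ℤ) = τ := Int.toNat_of_nonneg (by omega)
    omega
  by_cases hA : ∀ i, 0 < d (i + t) - d i
  · have h1 := UPX_step (d := d) (t := t) (fun i => by have := hA i; omega) i0 τ.toNat
    rw [hlast] at h1
    omega
  · push Not at hA
    obtain ⟨j, hj⟩ := hA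
    have h1 : ∀ n : ℕ, d (j + 1 + n + t) - d (j + 1 + n) < 0 := by
      intro n
      induction n with
      | zero =>
        have := hP j hj
        simpa using this
      | succ n ih =>
        have h2 := hP (j + 1 + n) ih.le
        have h3 : j + 1 + ((n + 1 : ℕ) : ℤ) = j + 1 + n + 1 := by push_cast; ring
        rw [h3]
        exact h2
    have h2 : ∀ i, d (i + t) - d i < 0 := by
      intro i
      obtain ⟨q, hq0, hq⟩ : ∃ q : ℤ, 0 ≤ q ∧ j + 1 - i ≤ q := ⟨|j + 1 - i|, abs_nonneg _, le_abs_self _⟩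
      have h3 : q ≤ τ * q := by nlinarith
      obtain ⟨n, hn⟩ : ∃ n : ℕ, i + τ * q = j + 1 + n := by
        refine ⟨(i + τ * q - (j + 1)).toNat, ?_⟩
        rw [Int.toNat_of_nonneg (by omega)]
        ring
      have h4 := h1 n
      rw [← hn, hg] at h4
      exact h4
    have h3 := UPX_step (d := fun i => -d i) (t := t) (fun i => by have := h2 i; show -d i + 1 ≤ -d (i + t); omega) i0 τ.toNat
    have h4 : -d i0 + (τ.toNat : ℤ) ≤ -d (i0 + (τ.toNat : ℤ) * t) := h3
    rw [hlast] at h4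
    omega

end Pool.Agent.helper97.AS
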